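import Pool.Agent.V5helper92.Lef.Main
import Pool.Agent.V5helper92.Lef.Well

/-!
# The effective cones of curves of `Y` and of its very general ample divisors of large degree differ

MP_f4858a_ag, Q1, asks whether for every smooth projective variety `Y` of dimension at least four and
every ample divisor `A` the push-forward `i_*` maps `Eff_1(X)` onto `Eff_1(Y)` (and is an isomorphism
`N_1(X) → N_1(Y)`) for a very general member `X` of `|dA|`, `d ≥ d_0`. The answer is no: it is false
for `Y = ℙ^1 × ℙ^b`, `b ≥ 3`, for all ample divisors `A`, for all large `d`, and for a general `X`.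

Let `A = O(p, q)`, `p, q ≥ 1`; these are the ample classes on `ℙ^1 × ℙ^b`, and the members of `|dA|`
are the `{G = 0}` with a nonzero form `G` of bidegree `(d p, d q)`. Let `d p ≥ b`. There is a
homogeneous polynomial `R` in the coefficients of `G`, not zero at all these `G`, such that for
`R(G) ≠ 0` and `X = {G = 0}` the image `i_* Eff_1(X)` is a proper subset of `Eff_1(Y)`.

The same `R` works for all closed subsets `Y` of `ℙ^1 × ℙ^b` (with `A = O(p, q)|_Y`) which contain a
fibre `ℙ^1 × {w}` of the second projection, for example for all `Y = ℙ^1 × W`, `W ⊆ ℙ^b`, and for the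
blow-ups of the closed subvarieties `W` of `ℙ^b` in the base loci of pencils of hyperplane sections.
(For a fixed `Y` and `d` large the forms of bidegree `(d p, d q)` cut out the complete linear system
`|dA|` on `Y`, by Serre.) For `Y = ℙ^1 × ℙ^b`, `Y.eqs` is empty.

The notions used are defined in `Pool/Agent/V5helper92/Lef/Defs.lean`: `Closed a b` (closed subsets of
`ℙ^a × ℙ^b`), `Curve Z` (the integral curves in `Z`), `Mor Z M` (the morphisms `Z → ℙ^M`),
`Mor.deg` (the intersection numbers; well defined by `Mor.exists_at`, `Mor.deg_eq` in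
`Pool/Agent/V5helper92/Lef/Well.lean`), `N1 Z`, `Eff1 Z`, `push` (`i_*`), `Closed.cut`
(`Y ∩ {G = 0}`).
-/

set_option autoImplicit false

open MvPolynomial Pool.Agent.V5helper92.Lef

namespace Pool.Agent.Results.MP_f4858a_ag.EffConeNotPreserved

/-- Let `p, q ≥ 1` and `d p ≥ b`. There is a homogeneous polynomial `R`, not identically zero, in the
coefficients of the forms of bidegree `(d p, d q)` on `ℙ^1 × ℙ^b`, such that for all forms `G` of this
bidegree with `R(G) ≠ 0` and all closed subsets `Y` of `ℙ^1 × ℙ^b` which contain a fibre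
`ℙ^1 × {w}` (for example `Y = ℙ^1 × ℙ^b`) the image of `Eff_1(X)`, `X = Y ∩ {G = 0}`, under
`i_* : N_1(X) → N_1(Y)` is a proper subset of `Eff_1(Y)`. -/
theorem result (b p q d : ℕ) (hp : 1 ≤ p) (hq : 1 ≤ q) (hd : b ≤ d * p) :
    ∃ (R : MvPolynomial ((Fin 2 ⊕ Fin (b + 1)) →₀ ℕ) ℂ) (e : ℕ), R.IsHomogeneous e ∧
      (∃ G : Poly 1 b, IsForm G (d * p) (d * q) ∧ eval (fun m => coeff m G) R ≠ 0) ∧
      ∀ (G : Poly 1 b) (hG : IsForm G (d * p) (d * q)), eval (fun m => coeff m G) R ≠ 0 →
        ∀ (Y : Closed 1 b) (w : Fin (b + 1) → ℂ), w ≠ 0 →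
          (∀ u : Fin 2 → ℂ, ∀ F ∈ Y.eqs, eval (Sum.elim u w) F = 0) →
          (push (Y.eqs_cut G hG)) '' Eff1 (Y.cut G hG) ⊂ Eff1 Y :=
  ⟨res b (d * p) (d * q), _, res_homogeneous,
    ⟨spec b (d * p) (d * q), spec_form hd, by rw [res_spec]; exact one_ne_zero⟩,
    fun _ hG hR Y _ hw hY => main hd hG hR Y hw hY⟩

end Pool.Agent.Results.MP_f4858a_ag.EffConeNotPreserved
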